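import Pool.Agent.V11302.FM.Virt

/-!
# Extension of projective representations at a sparse set of primes

Let `f` be any function. There is a sequence `T` of prime numbers, growing faster than prescribed by `f`,
such that for all number fields `K₀ ⊆ K`, every prime number `p`, every finite extension `E` of `ℚ_p` and
every continuous representation `ρ : G_K → GL_n(E)` which is unramified outside a finite set of primes and
absolutely irreducible on every open subgroup (for example a `λ`-adic representation of a Hilbert newform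
without complex multiplication) the following holds. If for every `g` in `G_{K₀}`, for almost every `i`
and every Frobenius element `σ` of `G_K` above `T i` with `gσg⁻¹` in `G_K`, the matrices `ρ(gσg⁻¹) ^ m` and
`ρ(σ) ^ m` have the same characteristic polynomial for some `m ≥ 1` (for example: the eigenvalues of the newform
at the places `v` and `gv` above `T i` agree up to sign), then the projective representation of `ρ` extends to
`G_{K₀}`: there is a continuous homomorphism `P : G_{K₀} → PGL_n(E)` with `P(σ) = [ρ(σ)]` for all `σ` in `G_K`.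

Nothing is assumed at the places above `p`. The set `T` is very thin: there is a totally real field `L` of
infinite degree, Galois and unramified at all finite places over a real quadratic field, in which all the
primes `T i` split completely.
-/

set_option autoImplicit false

namespace Pool.Agent.Results.MP_e1ffa3_nt.ProjectiveExtension

open NumberField IntermediateField Module

attribute [local instance 10] DivisionRing.toRatAlgebra

/-- the absolute Galois group of `ℚ` -/
abbrev GQ : Type := Gal(AlgebraicClosure ℚ/ℚ)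

/-- the ring of all algebraic integers -/
abbrev ZBar : Type := 𝓞 (AlgebraicClosure ℚ)

/-- `τ` lies in the inertia group at the maximal ideal `P` of the ring of all algebraic integers -/
def Inertia (P : Ideal ZBar) (τ : GQ) : Prop := ∀ x : ZBar, τ • x - x ∈ P

/-- `σ` is a (geometric) Frobenius element at the maximal ideal `P` above the prime number `q`: it induces
the inverse of `x ↦ x ^ q` on the residue field -/
def Frobenius (q : ℕ) (P : Ideal ZBar) (σ : GQ) : Prop := ∀ x : ZBar, x - (σ • x) ^ q ∈ P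

/-- `L` is a totally real Galois extension of infinite degree of the real quadratic field `k`, unramified at
all finite places, and a union of finite extensions of `ℚ` whose degrees are powers of two -/
structure UnramifiedTower (k L : IntermediateField ℚ (AlgebraicClosure ℚ)) : Prop where
  quadratic : finrank ℚ k = 2 ∧ ∃ s ∈ k,
    s ^ 2 = ((17 * 41 * 73 * 89 * 97 * 113 * 137 * 193 * 233 * 241 : ℕ) : AlgebraicClosure ℚ)
  le : k ≤ L
  infinite : ¬ FiniteDimensional ℚ L
  galois : ∀ σ : GQ, (∀ x ∈ k, σ x = x) → ∀ y ∈ L, σ y ∈ L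
  unramified : ∀ q : ℕ, q.Prime → ∀ P : Ideal ZBar, P.IsMaximal → (q : ZBar) ∈ P → ∀ τ : GQ,
    (∀ x ∈ k, τ x = x) → Inertia P τ → ∀ y ∈ L, τ y = y
  real : ∀ (φ : L →+* ℂ) (y : L), (φ y).im = 0
  two : ∀ y ∈ L, ∃ m : ℕ, finrank ℚ ℚ⟮y⟯ = 2 ^ m

/-- the prime number `q` is unramified and splits completely in `L`: all inertia elements and all Frobenius
elements above `q` fix `L` -/
def SplitsCompletely (q : ℕ) (L : IntermediateField ℚ (AlgebraicClosure ℚ)) : Prop :=
  ∀ P : Ideal ZBar, P.IsMaximal → (q : ZBar) ∈ P → ∀ σ : GQ, Inertia P σ ∨ Frobenius q P σ →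
    ∀ y ∈ L, σ y = y

section rep

variable {K : IntermediateField ℚ (AlgebraicClosure ℚ)} {p : ℕ} [Fact p.Prime]
  {E : IntermediateField ℚ_[p] (PadicAlgCl p)} {n : ℕ}

/-- `ρ` is continuous and unramified outside a finite set of primes -/
def AlmostUnramified (ρ : K.fixingSubgroup →* GL (Fin n) E) : Prop :=
  Continuous ρ ∧
  ∃ S : Finset ℕ, ∀ q : ℕ, q.Prime → q ∉ S → ∀ P : Ideal ZBar, P.IsMaximal → (q : ZBar) ∈ P →
    ∀ τ : K.fixingSubgroup, Inertia P τ → ρ τ = 1

/-- `ρ` is absolutely irreducible on every open subgroup: the matrices of the elements of an open subgroup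
span the space of all matrices (theorem of Burnside) -/
def StronglyIrreducible (ρ : K.fixingSubgroup →* GL (Fin n) E) : Prop :=
  ∀ V : Subgroup GQ, IsOpen (V : Set GQ) →
    Submodule.span E {X | ∃ σ : K.fixingSubgroup, (σ : GQ) ∈ V ∧
      X = (ρ σ : Matrix (Fin n) (Fin n) E)} = ⊤

/-- for all Frobenius elements `σ` of `G_K` above almost all `T i` with `gσg⁻¹` in `G_K` there is an
exponent `m ≥ 1` such that `ρ(gσg⁻¹) ^ m` and `ρ(σ) ^ m` have the same characteristic polynomial, i.e. the
eigenvalues of `ρ(gσg⁻¹)` and `ρ(σ)` agree up to roots of unity -/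
def InvariantUpToRoots (T : ℕ → ℕ) (ρ : K.fixingSubgroup →* GL (Fin n) E) (g : GQ) : Prop :=
  ∃ i₀ : ℕ, ∀ i ≥ i₀, ∀ P : Ideal ZBar, P.IsMaximal → (T i : ZBar) ∈ P →
    ∀ σ σ' : K.fixingSubgroup, (σ' : GQ) = g * σ * g⁻¹ → Frobenius (T i) P σ → ∃ m : ℕ, m ≠ 0 ∧
      ((ρ σ' : Matrix (Fin n) (Fin n) E) ^ m).charpoly = ((ρ σ : Matrix (Fin n) (Fin n) E) ^ m).charpoly

end rep

/-- the projective general linear group: invertible matrices modulo scalar matrices (the centre) -/
abbrev PGL (n : ℕ) (k : Type*) [Field k] : Type _ := GL (Fin n) k ⧸ Subgroup.center (GL (Fin n) k)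

/-- **Main result.** -/
theorem result (f : ℕ → ℕ) :
    ∃ (T : ℕ → ℕ) (k L : IntermediateField ℚ (AlgebraicClosure ℚ)),
      (∀ i, (T i).Prime ∧ T i < T (i + 1) ∧ f (T i) < T (i + 1)) ∧
      UnramifiedTower k L ∧ (∀ i, SplitsCompletely (T i) L) ∧
      ∀ (K₀ K : IntermediateField ℚ (AlgebraicClosure ℚ)), FiniteDimensional ℚ K → K₀ ≤ K →
        ∀ (p : ℕ) [Fact p.Prime] (E : IntermediateField ℚ_[p] (PadicAlgCl p)),
        FiniteDimensional ℚ_[p] E → ∀ n : ℕ, 0 < n → ∀ (ρ : K.fixingSubgroup →* GL (Fin n) E),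
          AlmostUnramified ρ → StronglyIrreducible ρ →
          (∀ g ∈ K₀.fixingSubgroup, InvariantUpToRoots T ρ g) →
          ∃ P : K₀.fixingSubgroup →* PGL n E, Continuous P ∧
            ∀ (σ₀ : K₀.fixingSubgroup) (σ : K.fixingSubgroup), (σ₀ : GQ) = σ →
              P σ₀ = QuotientGroup.mk (ρ σ) := by
  obtain ⟨T, k, L, hT1, hT2, htow, hrep⟩ := Pool.Agent.V11302.FM.mainProj f
  refine ⟨T, k, L, fun i => ⟨hT1 i, ?_, ?_⟩, ⟨⟨htow.rank, htow.sqrt⟩, htow.le, htow.inf, htow.galois,
    htow.unr, htow.real, htow.two⟩, ?_, ?_⟩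
  · have := hT2 i
    omega
  · have := hT2 i
    have := (hT1 i).pos
    omega
  · intro i P hP hTP σ hσ
    rcases hσ with hσ | hσ
    · exact htow.unrT i P hP hTP σ hσ
    · exact htow.split i P hP hTP σ hσ
  · intro K₀ K hK _ p hp E hE n hn ρ hρ hs hag
    obtain ⟨hρc, S, hS⟩ := hρ
    obtain ⟨P, h1, h2⟩ := hrep K.fixingSubgroup K.fixingSubgroup_isOpen p E hE n ρ hρc
      ⟨S, fun q hq hqS P hP hqP τ hτ hτP => hS q hq hqS P hP hqP ⟨τ, hτ⟩ hτP⟩ hs hn
      K₀.fixingSubgroup (fun g hg => by
        obtain ⟨i0, hi0⟩ := hag g hg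
        exact ⟨i0, fun i hi P hP hTP σ h h' hfr =>
          hi0 i hi P hP hTP ⟨σ, h⟩ ⟨g * σ * g⁻¹, h'⟩ rfl hfr⟩)
    refine ⟨P, h1, fun σ₀ σ hσ => ?_⟩
    have h3 : (σ₀ : GQ) ∈ K.fixingSubgroup := hσ ▸ σ.2
    have h4 : (⟨σ₀, h3⟩ : K.fixingSubgroup) = σ := Subtype.ext hσ
    rw [← h4]
    exact h2 σ₀ σ₀.2 h3


end Pool.Agent.Results.MP_e1ffa3_nt.ProjectiveExtension
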